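import Pool.Agent.Helper391.Lg.P_reg_of_ends
import Pool.Agent.Helper391.Lg.P_ipos_min
import Pool.Agent.Helper391.Lg.P_reg_mono
import Pool.Agent.Helper391.Lg.P_fin_decomp
import Pool.Agent.Helper391.Lg.P_parity_cuts
import Pool.Agent.Helper391.Lg.P_mk_eulk
import Pool.Agent.Helper391.Lg.P_k_main
import Pool.Agent.Helper391.Lg.P_tail_equiv
import Pool.Agent.Helper391.Lg.P_tail_inequiv
import Pool.Agent.Helper391.Lg.P_tail_all
import Pool.Agent.Helper391.Lg.P_conn4
import Pool.Agent.Helper391.Lg.P_conn4_inf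
import Pool.Agent.Helper391.Lg.P_countable_of_conn

set_option autoImplicit false
set_option linter.all false

/-!
# Hamilton circles in line graphs of 4-edge-connected graphs with finitely many ends

Let `G` be a locally finite 4-edge-connected graph with exactly `k + 1` ends. Then the vertices of
the line graph `L(G)` are partitioned into `k + 1` two-way infinite paths which, joined cyclically at
the `k + 1` ends of `L(G)`, form a Hamilton circle.
-/

namespace Pool.Agent.Results.MP_7f38c2_co.FinitelyManyEnds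

/-- `r` is a ray (one-way infinite path) of `G` -/
def IsRay {V : Type*} (G : SimpleGraph V) (r : ℕ → V) : Prop :=
  Function.Injective r ∧ ∀ n, G.Adj (r n) (r (n + 1))

/-- The rays `r` and `r'` are equivalent: no finite vertex set `S` separates them, i.e. for each
finite `S` they have tails avoiding `S` which are joined by a path avoiding `S`. -/
def RayEquiv {V : Type*} (G : SimpleGraph V) (r r' : ℕ → V) : Prop :=
  ∀ S : Finset V, ∃ m n : ℕ, (∀ i, m ≤ i → r i ∉ S) ∧ (∀ i, n ≤ i → r' i ∉ S) ∧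
    ∃ p : G.Walk (r m) (r' n), ∀ v ∈ p.support, v ∉ S

/-- `G` has exactly `k + 1` ends: there are `k + 1` pairwise inequivalent rays, and every ray is
equivalent to one of them -/
def HasEnds {V : Type*} (G : SimpleGraph V) (k : ℕ) : Prop :=
  ∃ r : Fin (k + 1) → ℕ → V, (∀ i, IsRay G (r i)) ∧ (∀ i j, i ≠ j → ¬ RayEquiv G (r i) (r j)) ∧
    ∀ s, IsRay G s → ∃ i, RayEquiv G s (r i)

/-- A Hamilton circle of a locally finite graph `H` with exactly `k + 1` ends: `k + 1` two-way
infinite paths `D 0, …, D k` (indices cyclic, `D (k + 1) = D 0`) such that every vertex of `H` is on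
exactly one of them, once; the positive tail of `D j` and the negative tail of `D (j + 1)` belong to
the same end; the ends of the positive tails are pairwise different and they are all the ends of
`H`. -/
def HamiltonCircle {W : Type*} (H : SimpleGraph W) (k : ℕ) : Prop :=
  ∃ D : Fin (k + 1) → ℤ → W,
    Function.Bijective (fun x : Fin (k + 1) × ℤ => D x.1 x.2) ∧
    (∀ j z, H.Adj (D j z) (D j (z + 1))) ∧
    (∀ j, RayEquiv H (fun n : ℕ => D j n) (fun n : ℕ => D (j + 1) (-n))) ∧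
    (∀ i j, i ≠ j → ¬ RayEquiv H (fun n : ℕ => D i n) (fun n : ℕ => D j n)) ∧
    ∀ s, IsRay H s → ∃ j, RayEquiv H s (fun n : ℕ => D j n)

/-- Every locally finite 4-edge-connected graph with exactly `k + 1` ends has a line graph with a
Hamilton circle. -/
theorem result {V : Type*} (G : SimpleGraph V) (hlf : ∀ v, (G.neighborSet v).Finite)
    (h4 : G.IsEdgeConnected 4) (k : ℕ) (hend : HasEnds G k) : HamiltonCircle G.lineGraph k := by
  classical
  obtain ⟨r, hr1, hr2, hr3⟩ := hend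
  haveI : Infinite V := Infinite.of_injective (r 0) (hr1 0).1
  have hconn : ∀ u v, G.Reachable u v := fun u v => h4.preconnected (by norm_num) u v
  have h4f : ∀ P : Set V, P.Finite → P.Nonempty → 4 ≤ (Pool.Agent.Helper391.Lg.bd G P).ncard :=
    fun P hP hne => Pool.Agent.Helper391.Lg.conn4 G hlf h4 P hP hne
  have h4i : ∀ P : Set V, P.Nonempty → Pᶜ.Nonempty → (Pool.Agent.Helper391.Lg.bd G P).Finite →
      4 ≤ (Pool.Agent.Helper391.Lg.bd G P).ncard :=
    fun P hP hP' hb => Pool.Agent.Helper391.Lg.conn4_inf G h4 P hP hP' hb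
  obtain ⟨F, C, hFne, hReg⟩ := Pool.Agent.Helper391.Lg.reg_of_ends G hlf hconn k r ⟨hr1, hr2, hr3⟩
  obtain ⟨F', hF'fin, hFF', hI⟩ := Pool.Agent.Helper391.Lg.ipos_min G hlf h4f F hReg.finF
  have hReg' := Pool.Agent.Helper391.Lg.reg_mono G F C hReg F' hF'fin
  rw [Set.union_eq_self_of_subset_left hFF'] at hReg'
  have hF'ne : F'.Nonempty := hFne.mono hFF'
  set C' : Fin (k + 1) → Set V := fun i => C i \ F' with hC'
  obtain ⟨A, B, hAB, hdis, hA1, hA2, hB⟩ :=
    Pool.Agent.Helper391.Lg.fin_decomp G hlf h4i hconn F' hF'ne C' hReg' hI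
  obtain ⟨J, hJB, hJ1, hJ2⟩ :=
    Pool.Agent.Helper391.Lg.parity_cuts G hlf A B hAB hdis F' C' hReg' hB
  have hAG : A ⊆ G.edgeSet := hAB ▸ Set.subset_union_left
  have hBG : B ⊆ G.edgeSet := hAB ▸ Set.subset_union_right
  obtain ⟨ends, hends, hE⟩ := Pool.Agent.Helper391.Lg.mk_eulk G hlf A J hAG (hJB.trans hBG) F' C'
    hReg' hA1 hA2 hJ1 hJ2
  haveI : Countable V := Pool.Agent.Helper391.Lg.countable_of_conn G hlf hconn
  obtain ⟨D, σ, hσ, hD, hadj, htail, htail'⟩ :=
    Pool.Agent.Helper391.Lg.k_main ends F' hF'ne C' hE hReg'.cover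
  have hcon : ∀ i, ∀ S : Set V, S.Finite → ∃ K : Set V, K.Finite ∧ ∀ u ∈ C' i \ K, ∀ v ∈ C' i \ K,
      (SimpleGraph.fromEdgeSet {e | e ∈ G.edgeSet ∧ ∀ x ∈ e, x ∉ S}).Reachable u v := by
    intro i S hS
    obtain ⟨K, hK, hSK, hK2⟩ := hA2 i S hS
    refine ⟨K, hK, fun u hu v hv => (hK2 u hu v hv).mono ?_⟩
    apply SimpleGraph.fromEdgeSet_mono
    intro e he
    exact ⟨hAG he.1, fun x hx hxS => (he.2 x hx).2 (hSK hxS)⟩
  have hmem : ∀ e : G.edgeSet, ∃ x, x ∈ ends e := by
    intro e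
    induction h : ends e with
    | _ x y => exact ⟨x, by simp⟩
  have hinj : ∀ j, Function.Injective (D j) := by
    intro j a b hab
    have := hD.1 (a₁ := (j, a)) (a₂ := (j, b)) hab
    exact (Prod.mk.inj this).2
  have hposC : ∀ j, ∃ N : ℕ, ∀ n ≥ N, ∃ x, x ∈ (D j (n : ℤ) : Sym2 V) ∧ x ∈ C' (σ (j + 1)) := by
    intro j
    obtain ⟨N, hN⟩ := htail j
    refine ⟨N, fun n hn => ?_⟩
    obtain ⟨x, hx⟩ := hmem (D j n)
    exact ⟨x, hends _ x hx, hN n hn x hx⟩
  have hnegC : ∀ j, ∃ N : ℕ, ∀ n ≥ N, ∃ x, x ∈ (D j (-(n : ℤ)) : Sym2 V) ∧ x ∈ C' (σ j) := by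
    intro j
    obtain ⟨N, hN⟩ := htail' j
    refine ⟨N, fun n hn => ?_⟩
    obtain ⟨x, hx⟩ := hmem (D j (-(n : ℤ)))
    exact ⟨x, hends _ x hx, hN n hn x hx⟩
  have hipos : ∀ j, Function.Injective (fun n : ℕ => D j (n : ℤ)) := fun j a b hab => by
    exact_mod_cast hinj j hab
  have hineg : ∀ j, Function.Injective (fun n : ℕ => D j (-(n : ℤ))) := fun j a b hab => by
    have := hinj j hab
    omega
  refine ⟨D, hD, ?_, ?_, ?_, ?_⟩
  · intro j z
    obtain ⟨x, hx1, hx2⟩ := hadj j z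
    refine ⟨?_, ⟨x, hends _ x hx1, hends _ x hx2⟩⟩
    intro h
    have := hinj j h
    omega
  · intro j
    exact Pool.Agent.Helper391.Lg.tail_equiv G hlf (C' (σ (j + 1))) (hcon _) _ _ (hipos j)
      (hineg (j + 1)) (hposC j) (hnegC (j + 1))
  · intro i j hij
    refine Pool.Agent.Helper391.Lg.tail_inequiv G hlf F' C' hReg' (σ (i + 1)) (σ (j + 1)) ?_ _ _
      (hposC i) (hposC j)
    intro h
    exact hij (add_right_cancel (hσ.1 h))
  · intro s hs
    obtain ⟨i, hi⟩ := Pool.Agent.Helper391.Lg.tail_all G hlf F' C' hReg' s hs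
    obtain ⟨j', hj'⟩ := hσ.2 i
    refine ⟨j' - 1, ?_⟩
    have h1 : σ (j' - 1 + 1) = i := by rw [sub_add_cancel]; exact hj'
    have h2 := hposC (j' - 1)
    rw [h1] at h2
    exact Pool.Agent.Helper391.Lg.tail_equiv G hlf (C' i) (hcon _) _ _ hs.1 (hipos _) hi h2

end Pool.Agent.Results.MP_7f38c2_co.FinitelyManyEnds
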