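import Pool.Agent.Helper391.Lg.P_decomposition
import Pool.Agent.Helper391.Lg.P_dom_double
import Pool.Agent.Helper391.Lg.P_conn4
import Pool.Agent.Helper391.Lg.P_one_end_of_rays

set_option autoImplicit false
set_option linter.all false

/-!
# Hamilton circles in line graphs of one-ended 4-edge-connected graphs

Let `G` be a locally finite 4-edge-connected graph with exactly one end. Then its line graph has a
two-way infinite path through all its vertices, i.e. a Hamilton circle.

Idea of the proof. One decomposes `E(G) = A ∪ B` such that `A` is connected and one-ended and every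
component of `B` is infinite. This is done in finite layers, with matroid union (a direct proof of
the two-fold packing theorem) applied in each layer, and with a submodular-type cost function which
controls what is left outside. Then a subset `J` of `B` repairs the parities of the degrees of `A`,
`A ∪ J` has a two-way infinite Euler trail, and the other edges are inserted as loops.
-/

namespace Pool.Agent.Results.MP_7f38c2_co.OneEnded

/-- `r` is a ray (one-way infinite path) of `G` -/
def IsRay {V : Type*} (G : SimpleGraph V) (r : ℕ → V) : Prop :=
  Function.Injective r ∧ ∀ n, G.Adj (r n) (r (n + 1))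

/-- The rays `r` and `r'` are equivalent: no finite vertex set `S` separates them, i.e. for each
finite `S` they have tails avoiding `S` which are joined by a path avoiding `S`. -/
def RayEquiv {V : Type*} (G : SimpleGraph V) (r r' : ℕ → V) : Prop :=
  ∀ S : Finset V, ∃ m n : ℕ, (∀ i, m ≤ i → r i ∉ S) ∧ (∀ i, n ≤ i → r' i ∉ S) ∧
    ∃ p : G.Walk (r m) (r' n), ∀ v ∈ p.support, v ∉ S

/-- `G` has exactly one end: there is a ray and any two rays are equivalent -/
def ExactlyOneEnd {V : Type*} (G : SimpleGraph V) : Prop :=
  (∃ r : ℕ → V, IsRay G r) ∧ ∀ r r' : ℕ → V, IsRay G r → IsRay G r' → RayEquiv G r r'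

/-- `H` has a two-way infinite path which contains every vertex of `H` -/
def SpanningDoubleRay {W : Type*} (H : SimpleGraph W) : Prop :=
  ∃ f : ℤ → W, Function.Bijective f ∧ ∀ n : ℤ, H.Adj (f n) (f (n + 1))

/-- Every locally finite 4-edge-connected graph with exactly one end has a line graph with a
two-way infinite path through all vertices. -/
theorem result {V : Type*} (G : SimpleGraph V) (hlf : ∀ v, (G.neighborSet v).Finite)
    (h4 : G.IsEdgeConnected 4) (hend : ExactlyOneEnd G) : SpanningDoubleRay G.lineGraph := by
  classical
  obtain ⟨⟨r₀, hr₀, -⟩, hall⟩ := hend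
  haveI : Infinite V := Infinite.of_injective r₀ hr₀
  have hconn : ∀ u v, G.Reachable u v := fun u v => h4.preconnected (by norm_num) u v
  have hone : Pool.Agent.Helper391.Lg.OneEnd G := by
    apply Pool.Agent.Helper391.Lg.one_end_of_rays G hlf hconn
    intro r r' hr hra hr' hra' S hS
    obtain ⟨m, n, hm, hn, p, hp⟩ := hall r r' ⟨hr, hra⟩ ⟨hr', hra'⟩ hS.toFinset
    refine ⟨m, n, fun i hi => by simpa using hm i hi, fun i hi => by simpa using hn i hi, ?_⟩
    clear hm hn hra hra' hr hr'
    generalize r m = a at p
    generalize r' n = b at p
    induction p with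
    | nil => exact SimpleGraph.Reachable.refl _
    | cons hadj q ih =>
      have h1 := ih (fun v hv => hp v (by simp [hv]))
      refine SimpleGraph.Reachable.trans (SimpleGraph.Adj.reachable ?_) h1
      rw [SimpleGraph.fromEdgeSet_adj]
      refine ⟨⟨hadj, ?_⟩, hadj.ne⟩
      intro x hx
      rw [Sym2.mem_iff] at hx
      rcases hx with rfl | rfl
      · simpa using hp _ (by simp)
      · simpa using hp _ (by simp)
  obtain ⟨A, B, h1, h2, h3, h5, h6⟩ := Pool.Agent.Helper391.Lg.decomposition G hlf
    (fun P hP hne => Pool.Agent.Helper391.Lg.conn4 G hlf h4 P hP hne) hone hconn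
  exact Pool.Agent.Helper391.Lg.dom_double G hlf A B h1 h2 h3 h5 h6

end Pool.Agent.Results.MP_7f38c2_co.OneEnded
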